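import Pool.Agent.N939.ME.Stm2

/-!
PROJECT ME of helper939, step ME11a (subtask 3705, helper296): discounted exits are controlled by
down-crossings, forward.
-/

set_option autoImplicit false
open MeasureTheory ProbabilityTheory Filter Topology Finset
open scoped Classical

namespace Pool.Agent.N296.ME

open Pool.Agent.N939.ME

variable {S : Type} [MeasurableSpace S]

/-- bounded measurable functions -/
def BM (h : S → ℝ) : Prop := Measurable h ∧ ∃ C : ℝ, ∀ x, |h x| ≤ C

theorem BM.integrable {h : S → ℝ} (hh : BM h) (μ : Measure S) [IsFiniteMeasure μ] :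
    Integrable h μ := by
  obtain ⟨h1, C, hC⟩ := hh
  exact Integrable.of_bound h1.aestronglyMeasurable C (Eventually.of_forall fun x => by
    rw [Real.norm_eq_abs]; exact hC x)

theorem BM.add {h g : S → ℝ} (hh : BM h) (hg : BM g) : BM (fun x => h x + g x) := by
  obtain ⟨h1, C, hC⟩ := hh
  obtain ⟨g1, D, hD⟩ := hg
  exact ⟨h1.add g1, C + D, fun x => (abs_add_le _ _).trans (add_le_add (hC x) (hD x))⟩

theorem BM.const_mul {h : S → ℝ} (hh : BM h) (c : ℝ) : BM (fun x => c * h x) := by
  obtain ⟨h1, C, hC⟩ := hh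
  exact ⟨h1.const_mul c, |c| * C, fun x => by
    rw [abs_mul]; exact mul_le_mul_of_nonneg_left (hC x) (abs_nonneg c)⟩

theorem BM.indicator {h : S → ℝ} (hh : BM h) {B : Set S} (hB : MeasurableSet B) :
    BM (B.indicator h) := by
  obtain ⟨h1, C, hC⟩ := hh
  refine ⟨h1.indicator hB, C, fun x => ?_⟩
  by_cases hx : x ∈ B
  · rw [Set.indicator_of_mem hx]; exact hC x
  · rw [Set.indicator_of_notMem hx, abs_zero]; exact (abs_nonneg _).trans (hC x)

theorem BM.zero : BM (fun _ : S => (0:ℝ)) := ⟨measurable_const, 0, fun x => by simp⟩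

theorem BM.one : BM (1 : S → ℝ) := ⟨measurable_one, 1, fun x => by simp⟩

theorem BM.tt {Q : Kernel S S} [IsMarkovKernel Q] (hm : ∀ h : S → ℝ, Measurable h →
    Measurable (TT Q h)) {h : S → ℝ} (hh : BM h) : BM (TT Q h) := by
  obtain ⟨h1, C, hC⟩ := hh
  refine ⟨hm h h1, C, fun x => ?_⟩
  have := norm_integral_le_of_norm_le_const (μ := Q x) (f := h) (C := C)
    (Eventually.of_forall fun y => by rw [Real.norm_eq_abs]; exact hC y)
  rw [Real.norm_eq_abs] at this
  simpa [TT] using this

theorem TT_mono {Q : Kernel S S} [IsMarkovKernel Q] {h g : S → ℝ} (hh : BM h) (hg : BM g)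
    (hle : ∀ x, h x ≤ g x) (x : S) : TT Q h x ≤ TT Q g x :=
  integral_mono (hh.integrable _) (hg.integrable _) hle

theorem TT_add {Q : Kernel S S} [IsMarkovKernel Q] {h g : S → ℝ} (hh : BM h) (hg : BM g) (x : S) :
    TT Q (fun y => h y + g y) x = TT Q h x + TT Q g x :=
  integral_add (hh.integrable _) (hg.integrable _)

theorem TT_mul {Q : Kernel S S} (c : ℝ) (h : S → ℝ) (x : S) :
    TT Q (fun y => c * h y) x = c * TT Q h x :=
  integral_const_mul c h

theorem thf_BM {Q : Kernel S S} [IsMarkovKernel Q] (hm : ∀ h : S → ℝ, Measurable h →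
    Measurable (TT Q h)) (ρ : ℝ) (B : ℕ → Set S) (hB : ∀ t, MeasurableSet (B t)) (i t : ℕ) :
    BM (thf Q ρ B i t) := by
  induction i generalizing t with
  | zero => exact BM.zero
  | succ i ih =>
    exact (BM.tt hm ((BM.one.indicator (hB (t + 1)).compl).add ((ih (t + 1)).const_mul ρ))).indicator
      (hB t)

theorem thf_supp (Q : Kernel S S) (ρ : ℝ) (B : ℕ → Set S) (i t : ℕ) (x : S) (hx : x ∉ B t) :
    thf Q ρ B i t x = 0 := by
  cases i with
  | zero => rfl
  | succ i => exact Set.indicator_of_notMem hx _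

theorem thf_bd {Q : Kernel S S} [IsMarkovKernel Q] (hm : ∀ h : S → ℝ, Measurable h →
    Measurable (TT Q h)) (ρ : ℝ) (h0 : 0 ≤ ρ) (h1 : ρ < 1) (B : ℕ → Set S)
    (hB : ∀ t, MeasurableSet (B t)) (i t : ℕ) (x : S) :
    0 ≤ thf Q ρ B i t x ∧ thf Q ρ B i t x ≤ 1 := by
  induction i generalizing t x with
  | zero => exact ⟨le_refl _, zero_le_one⟩
  | succ i ih =>
    by_cases hx : x ∈ B t
    · have e : thf Q ρ B (i + 1) t x = TT Q (fun y => ((B (t + 1))ᶜ).indicator 1 y +
          ρ * thf Q ρ B i (t + 1) y) x := Set.indicator_of_mem hx _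
      rw [e]
      have hbm : BM (fun y => ((B (t + 1))ᶜ).indicator (1 : S → ℝ) y +
          ρ * thf Q ρ B i (t + 1) y) :=
        (BM.one.indicator (hB (t + 1)).compl).add ((thf_BM hm ρ B hB i (t + 1)).const_mul ρ)
      have hpt : ∀ y, 0 ≤ ((B (t + 1))ᶜ).indicator (1 : S → ℝ) y + ρ * thf Q ρ B i (t + 1) y ∧
          ((B (t + 1))ᶜ).indicator (1 : S → ℝ) y + ρ * thf Q ρ B i (t + 1) y ≤ 1 := by
        intro y
        obtain ⟨g0, g1⟩ := ih (t + 1) y
        by_cases hy : y ∈ B (t + 1)
        · rw [Set.indicator_of_notMem (Set.notMem_compl_iff.2 hy), zero_add]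
          exact ⟨mul_nonneg h0 g0, by nlinarith⟩
        · rw [Set.indicator_of_mem hy, thf_supp Q ρ B i (t + 1) y hy]
          simp
      constructor
      · exact integral_nonneg fun y => (hpt y).1
      · have h2 := TT_mono (Q := Q) hbm (BM.one.const_mul 1) (fun y => by
          have := (hpt y).2
          simpa using this) x
        refine h2.trans (le_of_eq ?_)
        simp [TT]
    · rw [thf_supp Q ρ B (i + 1) t x hx]
      exact ⟨le_refl _, zero_le_one⟩

/-- expected number of down-crossings -/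
noncomputable def DD (Q : Kernel S S) (b : ℕ → Set S) : ℕ → ℕ → S → ℝ
  | 0, _ => fun _ => 0
  | i + 1, t => fun x => (b t).indicator (TT Q (((b (t + 1))ᶜ).indicator 1)) x +
      TT Q (DD Q b i (t + 1)) x

/-- expected discounted exits -/
noncomputable def SG (Q : Kernel S S) (ρ : ℝ) (b : ℕ → Set S) (A : Set S) : ℕ → ℕ → S → ℝ
  | 0, _ => fun _ => 0
  | i + 1, t => fun x => ((b t ∪ A) \ A).indicator
      (thf Q ρ (fun t => b t ∪ A) (i + 1) t) x + TT Q (SG Q ρ b A i (t + 1)) x

theorem DD_BM {Q : Kernel S S} [IsMarkovKernel Q] (hm : ∀ h : S → ℝ, Measurable h →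
    Measurable (TT Q h)) (b : ℕ → Set S) (hb : ∀ t, MeasurableSet (b t)) (i t : ℕ) :
    BM (DD Q b i t) := by
  induction i generalizing t with
  | zero => exact BM.zero
  | succ i ih =>
    exact ((BM.tt hm (BM.one.indicator (hb (t + 1)).compl)).indicator (hb t)).add
      (BM.tt hm (ih (t + 1)))

theorem SG_BM {Q : Kernel S S} [IsMarkovKernel Q] (hm : ∀ h : S → ℝ, Measurable h →
    Measurable (TT Q h)) (ρ : ℝ) (b : ℕ → Set S) (hb : ∀ t, MeasurableSet (b t)) (A : Set S)
    (hA : MeasurableSet A) (i t : ℕ) :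
    BM (SG Q ρ b A i t) := by
  induction i generalizing t with
  | zero => exact BM.zero
  | succ i ih =>
    exact ((thf_BM hm ρ _ (fun t => (hb t).union hA) (i + 1) t).indicator
      (((hb t).union hA).diff hA)).add (BM.tt hm (ih (t + 1)))

theorem key {Q : Kernel S S} [IsMarkovKernel Q] (hm : ∀ h : S → ℝ, Measurable h →
    Measurable (TT Q h)) (ρ : ℝ) (h0 : 0 ≤ ρ) (h1 : ρ < 1) (b : ℕ → Set S)
    (hb : ∀ t, MeasurableSet (b t)) (A : Set S) (hA : MeasurableSet A) (i t : ℕ) (x : S) :
    (b t).indicator (fun x => (1 / (1 - ρ)) * (ρ * thf Q ρ (fun t => b t ∪ A) i t x)) x ≤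
      (1 / (1 - ρ)) * DD Q b i t x + (-1) * SG Q ρ b A i t x := by
  have hρ : 0 < 1 - ρ := by linarith
  have hinv : 0 < 1 / (1 - ρ) := one_div_pos.2 hρ
  induction i generalizing t x with
  | zero =>
    have : (b t).indicator (fun x => (1 / (1 - ρ)) * (ρ * thf Q ρ (fun t => b t ∪ A) 0 t x)) x = 0 := by
      apply Set.indicator_apply_eq_zero.2
      intro _
      simp [thf]
    rw [this]
    simp [DD, SG]
  | succ i ih =>
    have hB : ∀ t, MeasurableSet ((fun t => b t ∪ A) t) := fun t => (hb t).union hA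
    have hth := thf_BM hm ρ (fun t => b t ∪ A) hB
    have hind : BM ((b (t + 1)).indicator
        (fun x => (1 / (1 - ρ)) * (ρ * thf Q ρ (fun t => b t ∪ A) i (t + 1) x))) :=
      (((hth i (t + 1)).const_mul ρ).const_mul _).indicator (hb (t + 1))
    have hF : BM (fun y => (1 / (1 - ρ)) * DD Q b i (t + 1) y + (-1) * SG Q ρ b A i (t + 1) y) :=
      ((DD_BM hm b hb i (t + 1)).const_mul _).add ((SG_BM hm ρ b hb A hA i (t + 1)).const_mul _)
    have hTF : TT Q (fun y => (1 / (1 - ρ)) * DD Q b i (t + 1) y +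
        (-1) * SG Q ρ b A i (t + 1) y) x =
        (1 / (1 - ρ)) * TT Q (DD Q b i (t + 1)) x + (-1) * TT Q (SG Q ρ b A i (t + 1)) x := by
      rw [TT_add ((DD_BM hm b hb i (t + 1)).const_mul _)
        ((SG_BM hm ρ b hb A hA i (t + 1)).const_mul _), TT_mul, TT_mul]
    have hmono := TT_mono (Q := Q) hind hF (ih (t + 1)) x
    rw [hTF] at hmono
    have hD : DD Q b (i + 1) t x = (b t).indicator (TT Q (((b (t + 1))ᶜ).indicator 1)) x +
      TT Q (DD Q b i (t + 1)) x := rfl
    have hS : SG Q ρ b A (i + 1) t x = ((b t ∪ A) \ A).indicator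
      (thf Q ρ (fun t => b t ∪ A) (i + 1) t) x + TT Q (SG Q ρ b A i (t + 1)) x := rfl
    by_cases hx : x ∈ b t
    · rw [Set.indicator_of_mem hx, hD, hS, Set.indicator_of_mem hx]
      have hxB : x ∈ (fun t => b t ∪ A) t := Or.inl hx
      have e : thf Q ρ (fun t => b t ∪ A) (i + 1) t x =
          TT Q (fun y => (((fun t => b t ∪ A) (t + 1))ᶜ).indicator 1 y +
          ρ * thf Q ρ (fun t => b t ∪ A) i (t + 1) y) x := Set.indicator_of_mem hxB _
      have e1 : ((b t ∪ A) \ A).indicator (thf Q ρ (fun t => b t ∪ A) (i + 1) t) x ≤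
          thf Q ρ (fun t => b t ∪ A) (i + 1) t x := by
        by_cases h2 : x ∈ (b t ∪ A) \ A
        · rw [Set.indicator_of_mem h2]
        · rw [Set.indicator_of_notMem h2]
          exact (thf_bd hm ρ h0 h1 _ hB (i + 1) t x).1
      have e2 : thf Q ρ (fun t => b t ∪ A) (i + 1) t x ≤
          TT Q (fun y => ((b (t + 1))ᶜ).indicator 1 y +
            (b (t + 1)).indicator (fun y => ρ * thf Q ρ (fun t => b t ∪ A) i (t + 1) y) y) x := by
        rw [e]
        refine TT_mono ((BM.one.indicator (hB (t + 1)).compl).add ((hth i (t + 1)).const_mul ρ))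
          ((BM.one.indicator (hb (t + 1)).compl).add
            (((hth i (t + 1)).const_mul ρ).indicator (hb (t + 1)))) ?_ x
        intro y
        obtain ⟨g0, g1⟩ := thf_bd hm ρ h0 h1 _ hB i (t + 1) y
        by_cases hy : y ∈ b (t + 1)
        · have hyB : y ∈ (fun t => b t ∪ A) (t + 1) := Or.inl hy
          rw [Set.indicator_of_notMem (Set.notMem_compl_iff.2 hyB),
            Set.indicator_of_notMem (Set.notMem_compl_iff.2 hy),
            Set.indicator_of_mem hy]
        · rw [Set.indicator_of_mem (show y ∈ (b (t + 1))ᶜ from hy), Set.indicator_of_notMem hy]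
          by_cases hyB : y ∈ (fun t => b t ∪ A) (t + 1)
          · rw [Set.indicator_of_notMem (Set.notMem_compl_iff.2 hyB)]
            simp only [Pi.one_apply]
            nlinarith
          · rw [thf_supp Q ρ _ i (t + 1) y hyB, Set.indicator_of_mem (show y ∈ _ᶜ from hyB)]
            simp
      have e3 : TT Q (fun y => ((b (t + 1))ᶜ).indicator 1 y +
            (b (t + 1)).indicator (fun y => ρ * thf Q ρ (fun t => b t ∪ A) i (t + 1) y) y) x =
          TT Q (((b (t + 1))ᶜ).indicator 1) x + TT Q ((b (t + 1)).indicator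
            (fun y => ρ * thf Q ρ (fun t => b t ∪ A) i (t + 1) y)) x :=
        TT_add (BM.one.indicator (hb (t + 1)).compl)
            (((hth i (t + 1)).const_mul ρ).indicator (hb (t + 1))) x
      have e4 : TT Q ((b (t + 1)).indicator
        (fun x => (1 / (1 - ρ)) * (ρ * thf Q ρ (fun t => b t ∪ A) i (t + 1) x))) x =
          (1 / (1 - ρ)) * TT Q ((b (t + 1)).indicator
            (fun y => ρ * thf Q ρ (fun t => b t ∪ A) i (t + 1) y)) x := by
        rw [← TT_mul]
        congr 1
        funext y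
        by_cases hy : y ∈ b (t + 1)
        · rw [Set.indicator_of_mem hy, Set.indicator_of_mem hy]
        · rw [Set.indicator_of_notMem hy, Set.indicator_of_notMem hy, mul_zero]
      rw [e4] at hmono
      rw [e3] at e2
      have e5 := mul_le_mul_of_nonneg_left e2 hinv.le
      have e6 : (1 / (1 - ρ)) * thf Q ρ (fun t => b t ∪ A) (i + 1) t x -
          thf Q ρ (fun t => b t ∪ A) (i + 1) t x =
          (1 / (1 - ρ)) * (ρ * thf Q ρ (fun t => b t ∪ A) (i + 1) t x) := by
        field_simp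
        ring
      rw [← e6]
      nlinarith [hmono, e5, e1]
    · rw [Set.indicator_of_notMem hx, hD, hS, Set.indicator_of_notMem hx,
        Set.indicator_of_notMem (fun h => hx (h.1.resolve_right h.2)), zero_add, zero_add]
      refine le_trans ?_ hmono
      refine integral_nonneg fun y => ?_
      apply Set.indicator_nonneg
      intro y _
      exact mul_nonneg hinv.le (mul_nonneg h0 (thf_bd hm ρ h0 h1 _ hB i (t + 1) y).1)

/-- ME11a -/
theorem crf (hTT : S_TT) : S_CRF := by
  intro S _ Q _ ν _ hν b hb A hA ρ h0 h1 N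
  obtain ⟨hm, hint, -⟩ := hTT S Q ν hν
  have hB : ∀ t, MeasurableSet ((fun t => b t ∪ A) t) := fun t => (hb t).union hA
  have hinv : ∀ h : S → ℝ, BM h → ∫ x, TT Q h x ∂ν = ∫ x, h x ∂ν :=
    fun h hh => (hint h (hh.integrable ν)).2.1
  have iD : ∀ i t, ∫ x, DD Q b i t x ∂ν = ∑ s ∈ range i,
      ∫ x, (b (t + s)).indicator (TT Q (((b (t + s + 1))ᶜ).indicator 1)) x ∂ν := by
    intro i
    induction i with
    | zero => intro t; simp [DD]
    | succ i ih =>
      intro t
      have e : ∫ x, DD Q b (i + 1) t x ∂ν =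
          ∫ x, (b t).indicator (TT Q (((b (t + 1))ᶜ).indicator 1)) x ∂ν +
            ∫ x, TT Q (DD Q b i (t + 1)) x ∂ν :=
        integral_add (((BM.tt hm (BM.one.indicator (hb (t + 1)).compl)).indicator (hb t)).integrable ν)
          ((BM.tt hm (DD_BM hm b hb i (t + 1))).integrable ν)
      rw [e, hinv _ (DD_BM hm b hb i (t + 1)), ih, Finset.sum_range_succ', add_comm]
      congr 1
      refine Finset.sum_congr rfl fun s _ => ?_
      rw [show t + 1 + s = t + (s + 1) by ring]
  have iS : ∀ i t, ∫ x, SG Q ρ b A i t x ∂ν = ∑ s ∈ range i,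
      ∫ x, ((b (t + s) ∪ A) \ A).indicator
        (thf Q ρ (fun t => b t ∪ A) (i - s) (t + s)) x ∂ν := by
    intro i
    induction i with
    | zero => intro t; simp [SG]
    | succ i ih =>
      intro t
      have e : ∫ x, SG Q ρ b A (i + 1) t x ∂ν =
          ∫ x, ((b t ∪ A) \ A).indicator (thf Q ρ (fun t => b t ∪ A) (i + 1) t) x ∂ν +
            ∫ x, TT Q (SG Q ρ b A i (t + 1)) x ∂ν :=
        integral_add (((thf_BM hm ρ _ hB (i + 1) t).indicator
          (((hb t).union hA).diff hA)).integrable ν)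
          ((BM.tt hm (SG_BM hm ρ b hb A hA i (t + 1))).integrable ν)
      rw [e, hinv _ (SG_BM hm ρ b hb A hA i (t + 1)), ih, Finset.sum_range_succ', add_comm]
      congr 1
      refine Finset.sum_congr rfl fun s _ => ?_
      rw [show t + 1 + s = t + (s + 1) by ring, show i + 1 - (s + 1) = i - s by omega]
  have hpos : 0 ≤ ∫ x, ((1 / (1 - ρ)) * DD Q b (N - 1) 0 x + (-1) * SG Q ρ b A (N - 1) 0 x) ∂ν := by
    refine integral_nonneg fun x => ?_
    refine le_trans ?_ (key hm ρ h0 h1 b hb A hA (N - 1) 0 x)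
    apply Set.indicator_nonneg
    intro y _
    exact mul_nonneg (one_div_pos.2 (by linarith)).le
      (mul_nonneg h0 (thf_bd hm ρ h0 h1 _ hB (N - 1) 0 y).1)
  rw [integral_add (((DD_BM hm b hb (N - 1) 0).const_mul _).integrable ν)
    (((SG_BM hm ρ b hb A hA (N - 1) 0).const_mul _).integrable ν), integral_const_mul,
    integral_const_mul, iD, iS] at hpos
  simp only [zero_add] at hpos
  linarith

end Pool.Agent.N296.ME
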